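import Pool.Agent.Q113.XU.Stm

/-!
Project XU (helper113), job GAPL (helper150): no atoms in the gap, for sequences.
-/

set_option autoImplicit false

namespace Pool.Agent.Q150.XU

open Finset Pool.Agent.Q54.EM Pool.Agent.Q113.XM Pool.Agent.W890.SF Pool.Agent.W593.IR
open Pool.Agent.Q113.XU Filter Topology

/-- the algebraic step -/
lemma gap_alg (a u e la y : ℝ) (hau : a + 1 / 20 < u) (hu : u ≤ 1 / 2)
    (hgpn : 4 / 100 * (8 / 10 - a) < (u - a) * (4 / 100 + (1 - 13 / 10 * u) ^ 2))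
    (hy : y ≤ 13 / 10 * u) (hu0 : 0 ≤ u)
    (he : e * (la - u) ≤ 4 / 100 * (8 / 10 - u))
    (hq : (u - a) * (1 - y) ^ 2 ≤ e * (la - u)) : False := by
  have h1 : 0 ≤ 1 - 13 / 10 * u := by linarith
  have h2 : (1 - 13 / 10 * u) ^ 2 ≤ (1 - y) ^ 2 := pow_le_pow_left₀ h1 (by linarith) 2
  have h3 : (u - a) * (1 - 13 / 10 * u) ^ 2 ≤ (u - a) * (1 - y) ^ 2 :=
    mul_le_mul_of_nonneg_left h2 (by linarith)
  nlinarith

theorem t_GAPL (hCS : S_CS) (hGPN : S_GPN) : S_NMO → S_NCL → S_NLE → S_GAQ → S_GAPL := by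
  intro hNMO hNCL hNLE hGAQ k r ι _ p x l L H w hSQ hL hLk
  have hk0 : (0 : ℝ) < k := by
    have : 0 < k := by
      have := hSQ.k6
      omega
    exact_mod_cast this
  obtain ⟨ha0, ha1, -⟩ := hCS k r hSQ.k6 hSQ.rc
  have hr0 := hSQ.rc.1
  have hNm : ∀ j, Nm k r (l j) (hh k (p j) (x j)) (PR (p j) (x j) (k - 1) k)
      (PR (p j) (x j) k k) := fun j => (hNMO (ι j) (p j) (x j) k r (l j) hSQ.k6 hSQ.rc (hSQ.op j)).1
  have hNL : NLi k r L H w := hNCL k r l _ _ _ L H w hNm hSQ.tL hSQ.tH hSQ.tw hSQ.tW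
  have hE := hNLE k r L H w hNL hL hLk
  have hH0 : 0 < H := hNL.h0
  have hL0 : 0 < L := by
    have : (0 : ℝ) < 8 / 10 * k := by positivity
    linarith
  set e : ℝ := L / H - 1 with he
  set la : ℝ := L / k with hla
  have hla8 : 8 / 10 < la := by
    rw [hla, lt_div_iff₀ hk0]
    exact hL
  have hla1 : la < 1 := by
    rw [hla, div_lt_one hk0]
    exact hLk
  have he0 : 0 ≤ e := by
    rw [he, sub_nonneg, le_div_iff₀ hH0, one_mul]
    exact hNL.hl
  -- `k / H < 13 / 10`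
  have hkH : (k : ℝ) / H < 13 / 10 := by
    rw [div_lt_iff₀ hH0]
    have h1 : L = (1 + e) * H := by
      rw [he]
      field_simp
      ring
    have h2 : (1 + e) * H ≤ 104 / 100 * H := by
      apply mul_le_mul_of_nonneg_right _ hH0.le
      linarith
    linarith
  have t1 : Tendsto (fun j => (k : ℝ) / hh k (p j) (x j)) atTop (𝓝 (k / H)) :=
    tendsto_const_nhds.div hSQ.tH hH0.ne'
  have t2 : Tendsto (fun j => l j / hh k (p j) (x j) - 1) atTop (𝓝 e) :=
    (hSQ.tL.div hSQ.tH hH0.ne').sub_const 1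
  have t3 : Tendsto (fun j => l j / k) atTop (𝓝 la) := hSQ.tL.div_const _
  set δ : ℝ := 2 / 10 * (la - 8 / 10) * (1 / 10) with hδ
  have hδ0 : 0 < δ := by
    rw [hδ]
    apply mul_pos (mul_pos (by norm_num) (by linarith)) (by norm_num)
  have t4 : Tendsto (fun j => (l j / hh k (p j) (x j) - 1) * (l j / k)) atTop (𝓝 (e * la)) :=
    t2.mul t3
  have ev1 := t1.eventually (gt_mem_nhds hkH)
  have ev2 := t2.eventually (lt_mem_nhds (show e - δ / 2 < e by linarith))
  have ev3 := t4.eventually (gt_mem_nhds (show e * la < e * la + δ / 2 by linarith))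
  filter_upwards [ev1, ev2, ev3] with j g1 g2 g3 i
  by_contra hcon
  push Not at hcon
  obtain ⟨c1, c2⟩ := hcon
  have hh0 := (hNm j).h0
  set u : ℝ := x j i / k with hu
  have hua : r / k + 1 / 20 < u := by
    rw [hu, ← sub_pos]
    have h1 : x j i / k - (r / k + 1 / 20) = (x j i - (r + k / 20)) / k := by
      field_simp
    rw [h1]
    exact div_pos (by linarith) hk0
  have hu2 : u ≤ 1 / 2 := by
    rw [hu, div_le_iff₀ hk0]
    linarith
  have hu0 : 0 < u := by linarith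
  have hxu : x j i / hh k (p j) (x j) = u * (k / hh k (p j) (x j)) := by
    rw [hu]
    field_simp
  have hy : x j i / hh k (p j) (x j) ≤ 13 / 10 * u := by
    rw [hxu, mul_comm]
    exact mul_le_mul_of_nonneg_right g1.le hu0.le
  have hxh : x j i < hh k (p j) (x j) := by
    have h1 : x j i / hh k (p j) (x j) < 1 := by linarith
    rwa [div_lt_one hh0] at h1
  have hq := hGAQ (ι j) (p j) (x j) k r (l j) hSQ.k6 hSQ.rc (hSQ.op j) i hxh
  refine gap_alg (r / k) u (l j / hh k (p j) (x j) - 1) (l j / k) (x j i / hh k (p j) (x j)) hua hu2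
    (hGPN (r / k) u ha0.le ha1 hua.le hu2) hy hu0.le ?_ hq
  -- the right side
  have h1 : e * (la - u) ≤ 4 / 100 * (8 / 10 - u) - δ := by
    have h2 : e * (la - u) ≤ 2 / 10 * (1 - la) * (la - u) :=
      mul_le_mul_of_nonneg_right hE (by linarith)
    have h3 : 2 / 10 * (2 / 10 * (8 / 10 - u) - (1 - la) * (la - u)) =
        2 / 10 * ((la - 8 / 10) * (la - 2 / 10 - u)) := by ring
    have h4 : (la - 8 / 10) * (1 / 10) ≤ (la - 8 / 10) * (la - 2 / 10 - u) :=
      mul_le_mul_of_nonneg_left (by linarith) (by linarith)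
    rw [hδ]
    nlinarith
  have h2 : (l j / hh k (p j) (x j) - 1) * (l j / k - u) ≤ e * (la - u) + δ := by
    have h3 : (e - δ / 2) * u ≤ (l j / hh k (p j) (x j) - 1) * u :=
      mul_le_mul_of_nonneg_right g2.le hu0.le
    nlinarith
  linarith

end Pool.Agent.Q150.XU
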